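import Pool.Agent.W785.FD.All

/-!
# Removing sets of capacity zero from p-fine domains

Let `X` be a complete metric space with a doubling Borel measure, positive and finite on balls, which
supports a `p`-Poincare inequality, `1 < p < ∞`. If `U` is a `p`-fine domain and `C_p(E) = 0`, then
`U \ E` is a `p`-fine domain.

Idea of the proof. Let `U \ E` be the union of disjoint finely open sets `V₁`, `V₂`, and let `φ` be a
capacitary test function, equal to one near `T = X \ (V₁ ∪ V₂)`. If a ball `B` contains a
substantial part of `V₁` and of its complement and the energy of `φ` near `B` is small, one finds
smaller and smaller balls with the same property, along which the scale invariant energy of `φ` decays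
geometrically; they shrink to a point of `T`, so the mean of `φ` over `B` is nearly one. (The small
balls are found by testing the Poincare inequality with the mean of regularisations of `1_{V₁}` at `n`
different scales, which has energy `n^(1-p)` times the mean energy; here `p > 1` is used.) It follows
that `(1 - φ) 1_{V_i}` satisfies a Poincare inequality with the gradient of `φ`, hence has a Newtonian
representative, which gives that at each point of `U` one of `V₁`, `V₂` is thin.
-/

set_option autoImplicit false

open MeasureTheory

namespace Pool.Agent.Results.MP_024e69_an.FineDomains

open Pool.Agent.W785.FD

/-- Let `X` be a complete metric space with a Borel measure `μ`, positive and finite on balls,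
doubling, which supports a `p`-Poincare inequality, `p > 1`. If `U` is a `p`-fine domain and the
Sobolev capacity `C_p(E)` is zero then `U \ E` is a `p`-fine domain. -/
theorem result {X : Type*} [MetricSpace X] [CompleteSpace X] [MeasurableSpace X] [BorelSpace X]
    (μ : Measure X) (p : ℝ) (hp : 1 < p) (hpos : PosFin μ) (hdoubling : Doubling μ)
    (hPoincare : Poincare μ p) (U E : Set X) (hU : FineDomain μ p U) (hE : Cp μ p E = 0) :
    FineDomain μ p (U \ E) :=
  main μ p hp hpos hdoubling hPoincare U E hU hE

end Pool.Agent.Results.MP_024e69_an.FineDomains
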